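import Pool.Agent.L7h28.HF.Stm

/-! [ZER] of project HF (helper28). -/

set_option autoImplicit false

noncomputable section

namespace Pool.Agent.L7h21.HF

open Pool.Agent.L7h28.HF Polynomial

/-- the dehomogenised form -/
def dp (h : ℕ → ℝ) : ℝ[X] := ∑ i ∈ Finset.range 9, C (h i) * X ^ i

theorem coeff_dp (h : ℕ → ℝ) (n : ℕ) : (dp h).coeff n = if n < 9 then h n else 0 := by
  unfold dp
  rw [finsetSum_coeff]
  simp only [coeff_C_mul, coeff_X_pow, mul_ite, mul_one, mul_zero]
  rw [Finset.sum_ite_eq]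
  simp only [Finset.mem_range]

theorem eval_dp (h : ℕ → ℝ) (θ : ℝ) (hs : Real.sin θ ≠ 0) :
    Real.sin θ ^ 8 * (dp h).eval (Real.cos θ / Real.sin θ) = frm 8 h θ := by
  unfold dp frm
  rw [eval_finsetSum, Finset.mul_sum]
  refine Finset.sum_congr rfl fun i hi => ?_
  have hi' : i ≤ 8 := by
    have := Finset.mem_range.1 hi
    omega
  rw [eval_mul, eval_C, eval_pow, eval_X, div_pow]
  have e : Real.sin θ ^ 8 = Real.sin θ ^ (8 - i) * Real.sin θ ^ i := by
    rw [← pow_add]
    congr 1
    omega
  rw [e]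
  field_simp

theorem eq_of_sin {α θ θ' : ℝ} (h1 : α ≤ θ) (h2 : θ < α + Real.pi) (h3 : α ≤ θ')
    (h4 : θ' < α + Real.pi) (h : Real.sin (θ - θ') = 0) : θ = θ' := by
  have h5 := (Real.sin_eq_zero_iff_of_lt_of_lt (x := θ - θ') (by linarith) (by linarith)).1 h
  linarith

/-- [ZER] -/
theorem s_ZER : S_ZER := by
  intro h α hne S hS
  classical
  have hP0 : dp h ≠ 0 := by
    intro h0
    obtain ⟨θ, hθ⟩ := hne
    apply hθ
    unfold frm
    refine Finset.sum_eq_zero fun i hi => ?_
    have h1 := coeff_dp h i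
    rw [h0, coeff_zero, if_pos (Finset.mem_range.1 hi)] at h1
    rw [← h1]
    ring
  have hdeg : (dp h).natDegree ≤ 8 := by
    rw [natDegree_le_iff_coeff_eq_zero]
    intro n hn
    rw [coeff_dp, if_neg (by omega)]
  have h1 : (S.filter fun θ => Real.sin θ ≠ 0).card ≤ (dp h).natDegree := by
    have h2 : ((S.filter fun θ => Real.sin θ ≠ 0).image fun θ => Real.cos θ / Real.sin θ).card =
        (S.filter fun θ => Real.sin θ ≠ 0).card := by
      apply Finset.card_image_of_injOn
      intro θ hθ θ' hθ' he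
      have a := Finset.mem_filter.1 (Finset.mem_coe.1 hθ)
      have a' := Finset.mem_filter.1 (Finset.mem_coe.1 hθ')
      obtain ⟨b1, b2, -⟩ := hS θ a.1
      obtain ⟨b1', b2', -⟩ := hS θ' a'.1
      apply eq_of_sin b1 b2 b1' b2'
      rw [Real.sin_sub]
      simp only at he
      rw [div_eq_div_iff a.2 a'.2] at he
      linarith
    rw [← h2]
    refine le_trans (Finset.card_le_card ?_) ((Multiset.toFinset_card_le _).trans (card_roots' (dp h)))
    intro x hx
    obtain ⟨θ, hθ, rfl⟩ := Finset.mem_image.1 hx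
    have a := Finset.mem_filter.1 hθ
    rw [Multiset.mem_toFinset, mem_roots hP0, IsRoot.def]
    have e := eval_dp h θ a.2
    rw [(hS θ a.1).2.2] at e
    rcases mul_eq_zero.1 e with h3 | h3
    · exact absurd h3 (pow_ne_zero 8 a.2)
    · exact h3
  have h0 : (S.filter fun θ => ¬ Real.sin θ ≠ 0).card ≤ 1 := by
    rw [Finset.card_le_one]
    intro θ hθ θ' hθ'
    have a := Finset.mem_filter.1 hθ
    have a' := Finset.mem_filter.1 hθ'
    obtain ⟨b1, b2, -⟩ := hS θ a.1
    obtain ⟨b1', b2', -⟩ := hS θ' a'.1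
    apply eq_of_sin b1 b2 b1' b2'
    rw [Real.sin_sub, not_not.1 a.2, not_not.1 a'.2]
    ring
  have hsum := Finset.card_filter_add_card_filter_not (s := S) (fun θ => Real.sin θ ≠ 0)
  rcases Finset.eq_empty_or_nonempty (S.filter fun θ => ¬ Real.sin θ ≠ 0) with he | ⟨θ, hθ⟩
  · rw [he, Finset.card_empty] at hsum
    omega
  · have a := Finset.mem_filter.1 hθ
    have hs : Real.sin θ = 0 := not_not.1 a.2
    have h8 : h 8 = 0 := by
      have e := (hS θ a.1).2.2
      unfold frm at e
      rw [Finset.sum_range_succ, hs] at e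
      have e2 : ∑ x ∈ Finset.range 8, h x * Real.cos θ ^ x * (0 : ℝ) ^ (8 - x) = 0 := by
        refine Finset.sum_eq_zero fun i hi => ?_
        have := Finset.mem_range.1 hi
        rw [zero_pow (by omega), mul_zero]
      rw [e2, zero_add, Nat.sub_self, pow_zero, mul_one] at e
      rcases mul_eq_zero.1 e with h3 | h3
      · exact h3
      · exfalso
        have hc : Real.cos θ = 0 := pow_eq_zero_iff (by norm_num) |>.1 h3
        have := Real.sin_sq_add_cos_sq θ
        rw [hs, hc] at this
        norm_num at this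
    have hdeg7 : (dp h).natDegree ≤ 7 := by
      rw [natDegree_le_iff_coeff_eq_zero]
      intro n hn
      rw [coeff_dp]
      split_ifs with h3
      · have : n = 8 := by omega
        rw [this, h8]
      · rfl
    omega

end Pool.Agent.L7h21.HF
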